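import Pool.Agent.Helper55.KFTrace

set_option autoImplicit false

/-! piece CONG of the proof of S09391 -/

namespace Pool.Agent.Helper90.ST

open Pool.Agent.Helper55.GQ

variable {G ι : Type} [Group G] {A : ι → Subgroup G} {S : Subgroup G} {s t : ℕ}

lemma card_pair_sigma {G ι : Type} [Finite G] [Fintype ι] (B : ι → G → Prop) :
    Nat.card {p : ι × G // B p.1 p.2} = ∑ i, Nat.card {g : G // B i g} := by
  classical
  haveI := Fintype.ofFinite G
  have h1 : Nat.card {p : ι × G // B p.1 p.2} = Nat.card (Σ i : ι, {g : G // B i g}) := by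
    refine Nat.card_congr
      { toFun := fun p => ⟨p.1.1, p.1.2, p.2⟩
        invFun := fun q => ⟨(q.1, q.2.1), q.2.2⟩
        left_inv := fun p => rfl
        right_inv := fun q => rfl }
  rw [h1, Nat.card_sigma]

theorem IsKF.finG (h : IsKF A S s t) (hs : 0 < s) (ht : 0 < t) : Finite G := by
  apply Nat.finite_of_card_ne_zero
  rw [h.cardG]
  positivity

theorem kf_congr (h : IsKF A S s t) (hs : 0 < s) (ht : 0 < t) [Fintype ι] (g₀ : G) :
    ((s : ℤ) + t) * t ∣ t * (∑ i, (Nat.card {g : G // g⁻¹ * g₀ * g ∈ A i} : ℤ))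
      - ∑ i, (Nat.card {g : G // g⁻¹ * g₀ * g ∈ A i ⊔ S} : ℤ) := by
  haveI := h.finG hs ht
  have h1 := (h.toKFam0 hs ht).trace_congr g₀
  unfold KFam0.N1 KFam0.N2 at h1
  rw [card_pair_sigma (fun i g => g⁻¹ * g₀ * g ∈ A i),
    card_pair_sigma (fun i g => g⁻¹ * g₀ * g ∈ A i ⊔ S)] at h1
  push_cast at h1
  exact h1

theorem kf_dvd (h : IsKF A S s t) (hs : 1 < s) (ht : 1 < t) : (s + t) ∣ (t + 1) * s ^ 2 := by
  classical
  have hs0 : 0 < s := by omega
  have ht0 : 0 < t := by omega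
  haveI := h.finG hs0 ht0
  haveI : Finite ι := by
    apply Nat.finite_of_card_ne_zero
    rw [h.cardI]; omega
  haveI := Fintype.ofFinite ι
  have hK := h.toKFam0 hs0 ht0
  obtain ⟨σ, hσ, hσ1⟩ : ∃ σ ∈ S, σ ≠ 1 := by
    by_contra hne
    push Not at hne
    have h1 : S = ⊥ := (Subgroup.eq_bot_iff_forall S).2 hne
    have h2 := h.cardS
    rw [h1, Subgroup.card_bot] at h2
    omega
  have hconj : ∀ g : G, g⁻¹ * σ * g ∈ S := by
    intro g
    have := h.normS.conj_mem σ hσ g⁻¹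
    rwa [inv_inv] at this
  have h1 := kf_congr h hs0 ht0 σ
  have h2 : ∀ i, (Nat.card {g : G // g⁻¹ * σ * g ∈ A i} : ℤ) = 0 := by
    intro i
    have : IsEmpty {g : G // g⁻¹ * σ * g ∈ A i} := by
      refine ⟨fun g => ?_⟩
      have h3 := hK.inter_AS g.2 (hconj g.1)
      apply hσ1
      have h4 : σ = g.1 * (g.1⁻¹ * σ * g.1) * g.1⁻¹ := by group
      rw [h4, h3]; group
    simp
  have h3 : ∀ i, (Nat.card {g : G // g⁻¹ * σ * g ∈ A i ⊔ S} : ℤ) = s ^ 2 * t := by
    intro i
    have h4 : Nat.card {g : G // g⁻¹ * σ * g ∈ A i ⊔ S} = Nat.card G := by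
      refine Nat.card_congr
        { toFun := fun g => g.1
          invFun := fun g => ⟨g, Subgroup.mem_sup_right (hconj g)⟩
          left_inv := fun g => rfl
          right_inv := fun g => rfl }
    rw [h4, h.cardG]
    push_cast; ring
  rw [Finset.sum_congr rfl (fun i _ => h2 i), Finset.sum_congr rfl (fun i _ => h3 i)] at h1
  rw [Finset.sum_const_zero, mul_zero, zero_sub, Finset.sum_const, Finset.card_univ,
    ← Nat.card_eq_fintype_card, h.cardI, dvd_neg, nsmul_eq_mul] at h1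
  have h5 : ((s + t) * t) ∣ ((t + 1) * s ^ 2) * t := by
    have : (((s + t) * t : ℕ) : ℤ) ∣ ((((t + 1) * s ^ 2) * t : ℕ) : ℤ) := by
      push_cast
      push_cast at h1
      rw [mul_assoc]
      exact h1
    exact_mod_cast this
  exact Nat.dvd_of_mul_dvd_mul_right ht0 h5

end Pool.Agent.Helper90.ST
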