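import Pool.Agent.Helper90.ST.Defs
import Pool.Agent.Helper55.GQGroup
import Pool.Agent.Helper55.KFBasic

set_option autoImplicit false

/-! piece GEOM of the proof of S09391 -/

namespace Pool.Agent.Helper90.ST

open Pool.Agent.Helper55.GQ in
theorem geom {P L : Type} [Fintype P] [Fintype L] {I : P → L → Prop} {s t : ℕ}
    (H : IsGQ I s t) (hs : 1 < s) (ht : 1 < t) (x : P)
    (G : Subgroup (Equiv.Perm P × Equiv.Perm L))
    (hI : ∀ g ∈ G, ∀ (p : P) (l : L), I (g.1 p) (g.2 l) ↔ I p l)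
    (hx : ∀ g ∈ G, g.1 x = x ∧ ∀ l : L, I x l → g.2 l = l)
    (hreg : ∀ p q : P, (¬ ∃ l : L, I x l ∧ I p l) → (¬ ∃ l : L, I x l ∧ I q l) →
      ∃! g : Equiv.Perm P × Equiv.Perm L, g ∈ G ∧ g.1 p = q)
    (hS : ∃ S : Subgroup (Equiv.Perm P × Equiv.Perm L),
      (∀ σ ∈ S, (∀ (p : P) (l : L), I (σ.1 p) (σ.2 l) ↔ I p l) ∧
        ∀ p : P, (∃ l : L, I x l ∧ I p l) → σ.1 p = p) ∧
      ∀ v w : P, (∃ l : L, I x l ∧ I v l) → (∃ l : L, I x l ∧ I w l) →
        (¬ ∃ l : L, I v l ∧ I w l) →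
        ∀ a b : P, a ≠ x → b ≠ x →
          (∃ l : L, I a l ∧ I v l) → (∃ l : L, I a l ∧ I w l) →
          (∃ l : L, I b l ∧ I v l) → (∃ l : L, I b l ∧ I w l) →
          ∃ σ ∈ S, σ.1 a = b)
    (hall : ∀ σ : Equiv.Perm P × Equiv.Perm L, (∀ (p : P) (l : L), I (σ.1 p) (σ.2 l) ↔ I p l) →
      (∀ p : P, (∃ l : L, I x l ∧ I p l) → σ.1 p = p) → σ ∈ G) :
    ∃ (ι : Type) (A : ι → Subgroup G) (S : Subgroup G), IsKF A S s t ∧
      ∀ σ : G, (∀ p : P, (∃ l : L, I x l ∧ I p l) → σ.1.1 p = p) → σ ∈ S := by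
  have E : IsElation I s t x G := ⟨H, hI, hx, hreg⟩
  obtain ⟨y0, hy0⟩ := E.exists_aff (by omega) (by omega)
  obtain ⟨l0, _⟩ := exists_line E.gq x
  haveI : Nonempty L := ⟨l0⟩
  obtain ⟨S0, hS1, hS2⟩ := hS
  have hcS : Nat.card (symS I x G) = t := by
    refine E.card_symS (by omega) (by omega) ?_
    intro v w hxv hxw hvw a b hax hbx hav haw hbv hbw
    obtain ⟨τ, hτ, hτa⟩ := hS2 v w hxv hxw hvw a b hax hbx hav haw hbv hbw
    exact ⟨τ, hall τ (hS1 τ hτ).1 (hS1 τ hτ).2, (hS1 τ hτ).2, hτa⟩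
  have hK2 : ∀ i j : {l : L // I y0 l}, i ≠ j → ∀ a ∈ stabL G i.1, ∀ c ∈ symS I x G,
      a * c ∈ stabL G j.1 → a * c = 1 := fun i j hij a ha c hc hac =>
        E.K2 hy0 i.2 j.2 (fun h => hij (Subtype.ext h)) ha hc hac
  refine ⟨{l : L // I y0 l}, fun l => stabL G l.1, symS I x G, ?_, fun σ hσ => hσ⟩
  exact
    { normS := E.normal_symS
      cardG := E.card_G hy0
      cardI := H.h2 y0
      cardA := fun i => E.card_stabL hy0 i.2
      cardS := hcS
      K1 := fun i j k hij hjk hik a ha b hb hab =>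
        (E.K1 hy0 i.2 j.2 k.2 (fun h => hij (Subtype.ext h)) (fun h => hjk (Subtype.ext h))
          (fun h => hik (Subtype.ext h)) ha hb hab).1
      K2 := by
        intro i j hij a ha b hb hab
        have h4 : b * (a * b)⁻¹ = a⁻¹ := by group
        have h1 : b * (a * b)⁻¹ ∈ stabL G i.1 := by
          rw [h4]; exact (stabL G i.1).inv_mem ha
        have h3 := hK2 j i hij.symm b hb _ ((symS I x G).inv_mem hab) h1
        rw [h4] at h3
        exact inv_eq_one.1 h3 }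

open Pool.Agent.Helper55.GQ in
/-- Higman's inequality -/
theorem geom_higman {P L : Type} [Fintype P] [Fintype L] {I : P → L → Prop} {s t : ℕ}
    (H : IsGQ I s t) (ht : 1 < t) (x : P) : s ≤ t ^ 2 := by
  obtain ⟨l0, _⟩ := exists_line H x
  haveI : Nonempty L := ⟨l0⟩
  exact higman H ht

end Pool.Agent.Helper90.ST
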